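import Mathlib

namespace Pool.Agent.Results.MP_6967ea_co.CofOmega
open Cardinal Function

universe u
variable {V : Type u}

/-- An orientation of `G`: every arc is an edge, every edge gets exactly one direction. -/
def IsOrientation (G : SimpleGraph V) (D : V → V → Prop) : Prop :=
  (∀ a b, D a b → G.Adj a b) ∧ ∀ a b, G.Adj a b → (D a b ↔ ¬ D b a)

/-- `S` induces an acyclic subdigraph: no closed directed walk of positive length inside `S`. -/
def Acyc (D : V → V → Prop) (S : Set V) : Prop :=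
  ∀ v, ¬ Relation.TransGen (fun a b => D a b ∧ a ∈ S ∧ b ∈ S) v v

/-- The dichromatic number. -/
noncomputable def chi (D : V → V → Prop) : Cardinal.{u} :=
  sInf {l | ∃ (I : Type u) (c : V → I), #I = l ∧ ∀ i, Acyc D (c ⁻¹' {i})}

def col (D : V → V → Prop) (B : Set V) (l : Cardinal.{u}) : Prop :=
  ∃ (I : Type u) (c : V → I), #I ≤ l ∧ ∀ i, Acyc D (B ∩ c ⁻¹' {i})

theorem Acyc.mono {D D' : V → V → Prop} {S T : Set V} (h : Acyc D T) (hs : S ⊆ T)
    (hd : ∀ a ∈ S, ∀ b ∈ S, D' a b → D a b) : Acyc D' S := fun v hv =>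
  h v (Relation.TransGen.mono (fun a b k => ⟨hd a k.2.1 b k.2.2 k.1, hs k.2.1, hs k.2.2⟩) v v hv)

theorem col.mono {D D' : V → V → Prop} {S T : Set V} {l m : Cardinal.{u}} (h : col D T l)
    (hs : S ⊆ T) (hl : l ≤ m) (hd : ∀ a ∈ S, ∀ b ∈ S, D' a b → D a b) : col D' S m := by
  obtain ⟨I, c, h1, h2⟩ := h
  exact ⟨I, c, h1.trans hl, fun i => (h2 i).mono (Set.inter_subset_inter_left _ hs)
    fun a ha b hb => hd a ha.1 b hb.1⟩

theorem chi_le {D : V → V → Prop} {l : Cardinal.{u}} (h : col D Set.univ l) : chi D ≤ l := by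
  obtain ⟨I, c, h1, h2⟩ := h
  refine le_trans (csInf_le' ?_) h1
  exact ⟨I, c, rfl, fun i => by simpa using h2 i⟩

theorem col_chi {D : V → V → Prop} (hi : ∀ a, ¬ D a a) : col D Set.univ (chi D) := by
  have : {l | ∃ (I : Type u) (c : V → I), #I = l ∧ ∀ i, Acyc D (c ⁻¹' {i})}.Nonempty := by
    refine ⟨_, V, id, rfl, fun i v hv => ?_⟩
    obtain ⟨b, h, -⟩ := Relation.TransGen.head'_iff.1 hv
    have e1 : v = i := h.2.1
    have e2 : b = i := h.2.2
    exact hi v (by have := h.1; rwa [e2, ← e1] at this)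
  obtain ⟨I, c, h1, h2⟩ := csInf_mem this
  exact ⟨I, c, h1.le, fun i => by simpa using h2 i⟩

theorem fam {D : V → V → Prop} {B : Set V} {l : Cardinal.{u}} {I : Type u} (c : V → I)
    (h : ∀ i, col D (B ∩ c ⁻¹' {i}) l) : col D B (#I * l) := by
  choose J d h1 h2 using h
  refine ⟨Σ i, J i, fun v => ⟨c v, d (c v) v⟩, ?_, fun p => (h2 p.1 p.2).mono ?_ fun _ _ _ _ k => k⟩
  · rw [Cardinal.mk_sigma, ← Cardinal.sum_const']
    exact Cardinal.sum_le_sum _ _ h1
  · rintro v ⟨hv, rfl⟩
    exact ⟨⟨hv, rfl⟩, rfl⟩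

theorem two {D : V → V → Prop} {B C : Set V} {l m : Cardinal.{u}} (h1 : col D (B ∩ C) l)
    (h2 : col D (B \ C) m) : col D B (2 * max l m) := by
  classical
  have := fam (D := D) (B := B) (l := max l m) (fun v => ULift.up.{u} (decide (v ∈ C))) (by
    rintro ⟨_ | _⟩
    · exact h2.mono (fun v hv => ⟨hv.1, by simpa using hv.2⟩) (le_max_right _ _) fun _ _ _ _ k => k
    · exact h1.mono (fun v hv => ⟨hv.1, by simpa using hv.2⟩) (le_max_left _ _) fun _ _ _ _ k => k)
  simpa using this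

theorem col_one {D : V → V → Prop} {B : Set V} (h : Acyc D B) : col D B 1 :=
  ⟨PUnit, fun _ => PUnit.unit, by simp, fun _ => h.mono Set.inter_subset_left fun _ _ _ _ k => k⟩

/-- If countably many orientations of `G` have dichromatic numbers with infinite supremum `κ`,
then a single orientation has dichromatic number `κ`. -/
theorem result (G : SimpleGraph V) (κ : Cardinal.{u}) (hκ : ℵ₀ ≤ κ) (D : ℕ → V → V → Prop)
    (hD : ∀ n, IsOrientation G (D n)) (hs : ⨆ n, chi (D n) = κ) :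
    ∃ E : V → V → Prop, IsOrientation G E ∧ chi E = κ := by
  classical
  by_cases hatt : ∃ n, chi (D n) = κ
  · obtain ⟨n, hn⟩ := hatt
    exact ⟨D n, hD n, hn⟩
  have lt : ∀ n, chi (D n) < κ := fun n =>
    lt_of_le_of_ne (hs ▸ le_ciSup Cardinal.bddAbove_of_small n) fun e => hatt ⟨n, e⟩
  have unb : ∀ l < κ, ∃ n, l < chi (D n) := fun l hl => exists_lt_of_lt_ciSup (hs ▸ hl)
  have cc : ∀ n, col (D n) Set.univ (chi (D n)) := fun n =>
    col_chi fun a h => G.irrefl ((hD n).1 a a h)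
  have k2 : (2 : Cardinal.{u}) < κ := (Cardinal.natCast_lt_aleph0 (n := 2)).trans_le hκ
  have k1 : (1 : Cardinal.{u}) < κ := one_lt_aleph0.trans_le hκ
  let Big : Set V → Prop := fun B => ∀ l < κ, ∃ n, ¬ col (D n) B l
  have split : ∀ (B : {B // Big B}) (k : ℕ), ∃ (A : Set V) (m : ℕ), A ⊆ B.1 ∧
      ¬ col (D m) A (chi (D k)) ∧ Big (B.1 \ A) := by
    rintro ⟨B, hB⟩ k
    obtain ⟨n1, h1⟩ := hB (2 * max 1 (chi (D k))) (Cardinal.mul_lt_of_lt hκ k2 (max_lt k1 (lt k)))
    obtain ⟨n2, h2⟩ := hB (chi (D n1) * chi (D k)) (Cardinal.mul_lt_of_lt hκ (lt n1) (lt k))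
    obtain ⟨I, c, c1, c2⟩ := cc n1
    obtain ⟨i, hi⟩ : ∃ i, ¬ col (D n2) (B ∩ c ⁻¹' {i}) (chi (D k)) := by
      by_contra h
      push Not at h
      exact h2 ((fam c h).mono subset_rfl (mul_le_mul_left c1 _) fun _ _ _ _ k => k)
    have h3 : ¬ col (D n1) (B \ c ⁻¹' {i}) (chi (D k)) := fun h =>
      h1 (two (col_one ((c2 i).mono (fun v hv => ⟨trivial, hv.2⟩) fun _ _ _ _ k => k)) h)
    by_cases hb : Big (B \ c ⁻¹' {i})
    · exact ⟨B ∩ c ⁻¹' {i}, n2, Set.inter_subset_left, hi, by simpa using hb⟩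
    · refine ⟨B \ c ⁻¹' {i}, n1, Set.diff_subset, h3, ?_⟩
      intro l hl
      simp only [Big] at hb
      push Not at hb
      obtain ⟨m, hm, hm2⟩ := hb
      obtain ⟨n, hn⟩ := hB (2 * max l m) (Cardinal.mul_lt_of_lt hκ k2 (max_lt hl hm))
      refine ⟨n, fun h => hn (two (C := c ⁻¹' {i}) (h.mono ?_ le_rfl fun _ _ _ _ k => k) (hm2 n))⟩
      exact fun v hv => ⟨hv.1, fun h => h.2 hv.2⟩
  choose A0 m0 s1 s2 s3 using split
  have big0 : Big Set.univ := fun l hl => by
    obtain ⟨n, hn⟩ := unb l hl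
    exact ⟨n, fun h => (chi_le h).not_gt hn⟩
  let B : ℕ → {B // Big B} := fun n => Nat.rec ⟨_, big0⟩ (fun n B => ⟨_, s3 B n⟩) n
  let A : ℕ → Set V := fun n => A0 (B n) n
  let m : ℕ → ℕ := fun n => m0 (B n) n
  have anti : Antitone fun n => (B n).1 := antitone_nat_of_succ_le fun n => Set.diff_subset
  have dis : ∀ v i j, v ∈ A i → v ∈ A j → i = j := by
    have : ∀ v i j, i < j → v ∈ A i → v ∈ A j → False := fun v i j h hi hj =>
      (anti (Nat.succ_le_of_lt h) (s1 (B j) j hj)).2 hi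
    intro v i j hi hj
    rcases lt_trichotomy i j with h | h | h
    · exact (this v i j h hi hj).elim
    · exact h
    · exact (this v j i h hj hi).elim
  let E : V → V → Prop := fun a b =>
    if h : ∃ n, a ∈ A n ∧ b ∈ A n then D (m h.choose) a b else G.Adj a b ∧ WellOrderingRel a b
  have e1 : ∀ n a b, a ∈ A n → b ∈ A n → (E a b ↔ D (m n) a b) := by
    intro n a b ha hb
    have h : ∃ n, a ∈ A n ∧ b ∈ A n := ⟨n, ha, hb⟩
    simp only [E, dif_pos h]
    rw [dis a _ _ h.choose_spec.1 ha]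
  have e2 : ∀ a b, (¬ ∃ n, a ∈ A n ∧ b ∈ A n) → (E a b ↔ G.Adj a b ∧ WellOrderingRel a b) := by
    intro a b h
    simp only [E, dif_neg h]
  have ori : IsOrientation G E := by
    refine ⟨fun a b h => ?_, fun a b h => ?_⟩
    · by_cases k : ∃ n, a ∈ A n ∧ b ∈ A n
      · obtain ⟨n, ha, hb⟩ := k
        exact (hD _).1 a b ((e1 n a b ha hb).1 h)
      · exact ((e2 a b k).1 h).1
    · by_cases k : ∃ n, a ∈ A n ∧ b ∈ A n
      · obtain ⟨n, ha, hb⟩ := k
        rw [e1 n a b ha hb, e1 n b a hb ha]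
        exact (hD _).2 a b h
      · rw [e2 a b k, e2 b a fun ⟨n, h1, h2⟩ => k ⟨n, h2, h1⟩]
        refine ⟨fun h1 h2 => asymm h1.2 h2.2, fun h1 => ⟨h, ?_⟩⟩
        rcases trichotomous_of WellOrderingRel a b with t | t | t
        · exact t
        · exact (h.ne t).elim
        · exact (h1 ⟨h.symm, t⟩).elim
  refine ⟨E, ori, le_antisymm ?_ ?_⟩
  · have := fam (D := E) (B := Set.univ) (l := κ)
      (fun v => ULift.up.{u} (if h : ∃ n, v ∈ A n then some h.choose else none)) (by
        rintro ⟨_ | n⟩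
        · have out : ∀ v ∈ Set.univ ∩ (fun v => ULift.up.{u}
              (if h : ∃ n, v ∈ A n then some h.choose else none)) ⁻¹' {ULift.up none},
              ¬ ∃ n, v ∈ A n := by
            intro v hv h
            have := hv.2
            simp [h] at this
          refine (col_one fun v hv => ?_).mono subset_rfl k1.le fun _ _ _ _ k => k
          have : Relation.TransGen WellOrderingRel v v := Relation.TransGen.mono (fun a b k =>
            ((e2 a b fun ⟨n, h, _⟩ => out a k.2.1 ⟨n, h⟩).1 k.1).2) v v hv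
          rw [Relation.transGen_eq_self] at this
          exact irrefl v this
        · have ins : ∀ v ∈ Set.univ ∩ (fun v => ULift.up.{u}
              (if h : ∃ n, v ∈ A n then some h.choose else none)) ⁻¹' {ULift.up (some n)},
              v ∈ A n := by
            intro v hv
            have := hv.2
            by_cases h : ∃ n, v ∈ A n
            · simp only [Set.mem_preimage, dif_pos h, Set.mem_singleton_iff, ULift.up.injEq,
                Option.some.injEq] at this
              exact this ▸ h.choose_spec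
            · simp [h] at this
          exact (cc (m n)).mono (Set.subset_univ _) (lt _).le fun a ha b hb k =>
            (e1 n a b (ins a ha) (ins b hb)).1 k)
    refine (chi_le this).trans (Cardinal.mul_le_of_le hκ ?_ le_rfl)
    exact Cardinal.mk_le_aleph0.trans hκ
  · by_contra h
    obtain ⟨n, hn⟩ := unb _ (not_le.1 h)
    exact s2 (B n) n ((col_chi fun a h => G.irrefl (ori.1 a a h)).mono (Set.subset_univ _) hn.le
      fun a ha b hb k => (e1 n a b ha hb).2 k)

end Pool.Agent.Results.MP_6967ea_co.CofOmega
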